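import Pool.Agent.Q152.WP.Fin

/-!
# Extensions whose kernel satisfies the laws of a virtually solvable group
-/

set_option autoImplicit false

namespace Pool.Agent.Q91.FJ

open Pool.Agent.Y462.SS Pool.Agent.Q152.WP

/-- the word `w` is a law of `A` -/
def IsLaw (A : Type) [Group A] (w : FreeGroup ℕ) : Prop :=
  ∀ f : ℕ → A, FreeGroup.lift f w = 1

/-- `K` satisfies all the laws of `A` -/
def SatLaws (A K : Type) [Group A] [Group K] : Prop :=
  ∀ w : FreeGroup ℕ, IsLaw A w → IsLaw K w

/-- `A` has a solvable normal subgroup of finite index -/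
def VSolv (A : Type) [Group A] : Prop :=
  ∃ S : Subgroup A, S.Normal ∧ S.FiniteIndex ∧ Group.IsSolvable S

section words

theorem lift_map {Y Z A : Type} [Group A] (e : Y → Z) (f : Z → A) (u : FreeGroup Y) :
    FreeGroup.lift f (FreeGroup.map e u) = FreeGroup.lift (f ∘ e) u := by
  have : (FreeGroup.lift f).comp (FreeGroup.map e) = FreeGroup.lift (f ∘ e) := by
    ext y
    simp
  exact DFunLike.congr_fun this u

theorem exists_support {Y : Type} (u : FreeGroup Y) : ∃ s : Finset Y, ∀ φ : Y → Y,
    (∀ y ∈ s, φ y = y) → FreeGroup.map φ u = u := by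
  classical
  induction u using FreeGroup.induction_on with
  | C1 => exact ⟨∅, fun φ _ => map_one _⟩
  | of y => exact ⟨{y}, fun φ h => by simp [h y (by simp)]⟩
  | inv_of y _ => exact ⟨{y}, fun φ h => by simp [h y (by simp)]⟩
  | mul a b ha hb =>
    obtain ⟨s, hs⟩ := ha
    obtain ⟨t, ht⟩ := hb
    refine ⟨s ∪ t, fun φ h => ?_⟩
    rw [map_mul, hs φ (fun y hy => h y (Finset.mem_union_left _ hy)),
      ht φ (fun y hy => h y (Finset.mem_union_right _ hy))]

/-- words in letters from an arbitrary set are renamings of words in `ℕ` -/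
theorem exists_rename {Y : Type} [Nonempty Y] (u : FreeGroup Y) : ∃ (e : Y → ℕ) (r : ℕ → Y),
    FreeGroup.map (r ∘ e) u = u := by
  classical
  obtain ⟨s, hs⟩ := exists_support u
  let y₀ : Y := Classical.arbitrary Y
  refine ⟨fun y => if h : y ∈ s then (s.equivFin ⟨y, h⟩ : ℕ) else 0,
    fun n => if h : n < s.card then (s.equivFin.symm ⟨n, h⟩ : Y) else y₀, hs _ ?_⟩
  intro y hy
  simp [hy]

/-- laws in arbitrary letters -/
theorem SatLaws.word {A K : Type} [Group A] [Group K] (h : SatLaws A K) {Y : Type} [Nonempty Y]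
    (u : FreeGroup Y) (hu : ∀ f : Y → A, FreeGroup.lift f u = 1) (g : Y → K) :
    FreeGroup.lift g u = 1 := by
  obtain ⟨e, r, h1⟩ := exists_rename u
  have h2 : IsLaw A (FreeGroup.map e u) := by
    intro f
    rw [lift_map]
    exact hu _
  have h3 := h _ h2 (g ∘ r)
  rw [lift_map] at h3
  have h4 : FreeGroup.lift g (FreeGroup.map (r ∘ e) u) = FreeGroup.lift (g ∘ (r ∘ e)) u :=
    lift_map _ _ _
  rw [h1] at h4
  rw [h4]
  exact h3

theorem SatLaws.trans {A B K : Type} [Group A] [Group B] [Group K] (h : SatLaws A B)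
    (h' : SatLaws B K) : SatLaws A K := fun w hw => h' w (h w hw)

/-- groups that embed -/
theorem SatLaws.of_injective {A K : Type} [Group A] [Group K] (f : K →* A)
    (hf : Function.Injective f) : SatLaws A K := by
  intro w hw g
  apply hf
  have h1 : f (FreeGroup.lift g w) = FreeGroup.lift (f ∘ g) w := by
    have : f.comp (FreeGroup.lift g) = FreeGroup.lift (f ∘ g) := by
      ext y
      simp
    exact DFunLike.congr_fun this w
  rw [h1, hw, map_one]

/-- quotients -/
theorem SatLaws.of_surjective {A K : Type} [Group A] [Group K] (f : A →* K)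
    (hf : Function.Surjective f) : SatLaws A K := by
  intro w hw g
  choose s hs using hf
  have h1 : f (FreeGroup.lift (s ∘ g) w) = FreeGroup.lift g w := by
    have : f.comp (FreeGroup.lift (s ∘ g)) = FreeGroup.lift g := by
      ext y
      simp [hs]
    exact DFunLike.congr_fun this w
  rw [← h1, hw, map_one]

/-- powers -/
theorem SatLaws.pi (A X : Type) [Group A] : SatLaws A (X → A) := by
  intro w hw g
  funext x
  have h1 : FreeGroup.lift g w x = FreeGroup.lift (fun n => g n x) w := by
    have : (Pi.evalMonoidHom (fun _ : X => A) x).comp (FreeGroup.lift g) =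
        FreeGroup.lift (fun n => g n x) := by
      ext y
      simp
    exact DFunLike.congr_fun this w
  rw [h1, hw]
  rfl

end words

section finite

/-- a finitely generated group which satisfies the laws of a finite group is finite -/
theorem finite_closure {B L : Type} [Group B] [Group L] [Finite B] (h : SatLaws B L)
    (s : Finset L) : Finite (Subgroup.closure (s : Set L)) := by
  classical
  rcases s.eq_empty_or_nonempty with rfl | hne
  · rw [Finset.coe_empty, Subgroup.closure_empty]
    infer_instance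
  have : Nonempty s := hne.to_subtype
  let π : FreeGroup s →* L := FreeGroup.lift (fun y => (y : L))
  let Φ : FreeGroup s →* ((s → B) → B) := MonoidHom.pi (fun f => FreeGroup.lift f)
  have hle : Φ.ker ≤ π.ker := by
    intro u hu
    exact h.word u (fun f => congrFun (MonoidHom.mem_ker.1 hu) f) _
  have h1 : Φ.ker.FiniteIndex := Subgroup.finiteIndex_ker Φ
  have h2 : π.ker.FiniteIndex := Subgroup.finiteIndex_of_le hle
  have h3 : Finite (FreeGroup s ⧸ π.ker) := Subgroup.finite_quotient_of_finiteIndex
  have h4 : Finite π.range := Finite.of_equiv _ (QuotientGroup.quotientKerEquivRange π).toEquiv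
  have h5 : Subgroup.closure (s : Set L) = π.range := by
    have h6 : π.range = Subgroup.closure (Set.range fun y : s => (y : L)) :=
      FreeGroup.range_lift_eq_closure
    rw [h6]
    congr 1
    ext x
    simp
  rw [h5]
  exact h4

/-- the kernel of a homomorphism is locally finite if it satisfies the laws of a finite group -/
theorem locFin_of_laws {B G : Type} [Group B] [Group G] [Finite B] {K : Subgroup G}
    (h : SatLaws B K) : LocFin K := by
  classical
  intro s hs
  have h1 := finite_closure h (s.attach.image (fun x => (⟨x.1, hs x.1 x.2⟩ : K)))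
  have h2 : Subgroup.closure (s : Set G) =
      (Subgroup.closure ((s.attach.image (fun x => (⟨x.1, hs x.1 x.2⟩ : K)) : Finset K) :
        Set K)).map K.subtype := by
    rw [MonoidHom.map_closure]
    congr 1
    ext x
    simp only [Finset.coe_image, Finset.coe_attach, Set.image_univ, Set.mem_image,
      Set.mem_range, Subtype.exists, Subgroup.subtype_apply, Finset.mem_coe]
    constructor
    · intro hx
      exact ⟨x, hs x hx, ⟨x, hx, rfl⟩, rfl⟩
    · rintro ⟨a, ha, ⟨b, hb, hab⟩, rfl⟩
      have h3 : b = a := congrArg Subtype.val hab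
      rw [← h3]
      exact hb
  rw [h2]
  exact Finite.of_surjective (fun x : Subgroup.closure ((s.attach.image
      (fun x => (⟨x.1, hs x.1 x.2⟩ : K)) : Finset K) : Set K) =>
      (⟨K.subtype x.1, Subgroup.mem_map_of_mem _ x.2⟩ : Subgroup.map K.subtype _)) (by
    rintro ⟨_, ⟨y, hy, rfl⟩⟩
    exact ⟨⟨y, hy⟩, rfl⟩)

end finite

section verbal

/-- the verbal subgroup for the laws of `B` -/
def vb (B F : Type) [Group B] [Group F] : Subgroup F :=
  Subgroup.closure {x | ∃ (w : FreeGroup ℕ) (g : ℕ → F), IsLaw B w ∧ x = FreeGroup.lift g w}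

theorem lift_comp {F F' : Type} [Group F] [Group F'] (c : F →* F') (g : ℕ → F)
    (w : FreeGroup ℕ) : c (FreeGroup.lift g w) = FreeGroup.lift (c ∘ g) w := by
  have : c.comp (FreeGroup.lift g) = FreeGroup.lift (c ∘ g) := by
    ext y
    simp
  exact DFunLike.congr_fun this w

theorem vb_map {B F F' : Type} [Group B] [Group F] [Group F'] (c : F →* F')
    {x : F} (hx : x ∈ vb B F) : c x ∈ vb B F' := by
  have h1 : (vb B F).map c ≤ vb B F' := by
    rw [vb, MonoidHom.map_closure, Subgroup.closure_le]
    rintro _ ⟨_, ⟨w, g, hw, rfl⟩, rfl⟩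
    exact Subgroup.subset_closure ⟨w, c ∘ g, hw, lift_comp c g w⟩
  exact h1 (Subgroup.mem_map_of_mem c hx)

variable {G : Type} [Group G]

/-- the verbal subgroup of the subgroup `K` for the laws of `B` -/
def verbal (B : Type) [Group B] (K : Subgroup G) : Subgroup G := (vb B K).map K.subtype

theorem verbal_le (B : Type) [Group B] (K : Subgroup G) : verbal B K ≤ K := by
  rintro _ ⟨x, -, rfl⟩
  exact x.2

theorem verbal_normal (B : Type) [Group B] (K : Subgroup G) [hK : K.Normal] :
    (verbal B K).Normal := by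
  refine ⟨?_⟩
  rintro _ ⟨x, hx, rfl⟩ g
  exact ⟨MulAut.conjNormal g x, vb_map (MulAut.conjNormal g : MulAut K).toMonoidHom hx,
    MulAut.conjNormal_apply g x⟩

/-- modulo the verbal subgroup the laws hold -/
theorem sat_quot (B : Type) [Group B] (K : Subgroup G) [hN : (verbal B K).Normal] :
    SatLaws B (K.map (QuotientGroup.mk' (verbal B K))) := by
  intro w hw f
  apply Subtype.ext
  have h1 : ∀ n, ∃ k : K, QuotientGroup.mk' (verbal B K) k = f n := by
    intro n
    obtain ⟨k, hk, hk'⟩ := (f n).2
    exact ⟨⟨k, hk⟩, hk'⟩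
  choose g hg using h1
  have h2 : (QuotientGroup.mk' (verbal B K)) (FreeGroup.lift g w : K) = 1 := by
    rw [QuotientGroup.mk'_apply, QuotientGroup.eq_one_iff]
    exact ⟨_, Subgroup.subset_closure ⟨w, g, hw, rfl⟩, rfl⟩
  have h3 : ((QuotientGroup.mk' (verbal B K)).comp (K.subtype.comp (FreeGroup.lift g))) =
      (Subgroup.subtype _).comp (FreeGroup.lift f) := by
    ext n
    simpa using hg n
  have h4 := DFunLike.congr_fun h3 w
  have h5 : (Subgroup.subtype _) (FreeGroup.lift f w) = 1 := by
    rw [← MonoidHom.comp_apply, ← h4]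
    exact h2
  exact h5

/-- the verbal subgroup for the laws of a quotient by a solvable subgroup is solvable -/
theorem vb_solvable {A : Type} [Group A] (S : Subgroup A) [S.Normal]
    (hS : Group.IsSolvable S) (K : Type) [Group K] (hK : SatLaws A K) :
    Group.IsSolvable (vb (A ⧸ S) K) := by
  obtain ⟨d, hd⟩ := hS.solvable
  let π : FreeGroup K →* K := FreeGroup.lift id
  have hπ : Function.Surjective π := fun k => ⟨FreeGroup.of k, by simp [π]⟩
  -- the verbal subgroup of the free group
  let τ : (K → A) → (FreeGroup K →* A) := fun f => FreeGroup.lift f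
  have hτ : ∀ f, ∀ x : vb (A ⧸ S) (FreeGroup K), τ f x ∈ S := by
    intro f x
    have h1 : (QuotientGroup.mk' S).comp (τ f) x.1 ∈ vb (A ⧸ S) (A ⧸ S) := vb_map _ x.2
    have h2 : vb (A ⧸ S) (A ⧸ S) = ⊥ := by
      rw [vb, Subgroup.closure_eq_bot_iff]
      rintro _ ⟨w, g, hw, rfl⟩
      exact hw g
    rw [h2, Subgroup.mem_bot] at h1
    exact (QuotientGroup.eq_one_iff _).1 h1
  let τ' : (K → A) → (vb (A ⧸ S) (FreeGroup K) →* S) := fun f =>
    ((τ f).comp (Subgroup.subtype _)).codRestrict S (hτ f)
  have h1 : ∀ x ∈ derivedSeries (vb (A ⧸ S) (FreeGroup K)) d, π x = 1 := by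
    intro x hx
    refine hK.word (Y := K) x.1 (fun f => ?_) id
    have h2 : τ' f x ∈ derivedSeries S d :=
      map_derivedSeries_le_derivedSeries (τ' f) d (Subgroup.mem_map_of_mem _ hx)
    rw [hd, Subgroup.mem_bot] at h2
    exact congrArg Subtype.val h2
  let ρ : vb (A ⧸ S) (FreeGroup K) →* vb (A ⧸ S) K :=
    (π.comp (Subgroup.subtype _)).codRestrict _ (fun x => vb_map π x.2)
  have hρ : Function.Surjective ρ := by
    have h2 : vb (A ⧸ S) K ≤ (vb (A ⧸ S) (FreeGroup K)).map π := by
      conv_lhs => rw [vb]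
      rw [Subgroup.closure_le]
      rintro _ ⟨w, g, hw, rfl⟩
      refine ⟨FreeGroup.lift (fun n => FreeGroup.of (g n)) w,
        Subgroup.subset_closure ⟨w, _, hw, rfl⟩, ?_⟩
      rw [lift_comp]
      congr 1
      ext n
      simp [π]
    rintro ⟨y, hy⟩
    obtain ⟨x, hx, rfl⟩ := h2 hy
    exact ⟨⟨x, hx⟩, rfl⟩
  refine ⟨⟨d, ?_⟩⟩
  rw [← map_derivedSeries_eq hρ, eq_bot_iff]
  rintro _ ⟨x, hx, rfl⟩
  rw [Subgroup.mem_bot]
  apply Subtype.ext
  exact h1 x hx

end verbal

section ext

variable {C : ∀ (G : Type) [Group G], Prop}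

/-- the class contains the solvable groups -/
def HasSolvable (C : ∀ (G : Type) [Group G], Prop) : Prop :=
  ∀ (G : Type) [Group G], Group.IsSolvable G → C G

/-- solvable kernels -/
theorem solvable_kernel (hE : ExtClosed C) (hS : HasSolvable C) {G Q : Type} [Group G] [Group Q]
    (f : G →* Q) (hf : Function.Surjective f) (hQ : C Q) (hK : Group.IsSolvable f.ker) : C G := by
  refine hE G Q f hf hQ (hS _ hK) (fun q _ => hS _ ?_)
  let g : (Subgroup.zpowers q).comap f →* Subgroup.zpowers q :=
    (f.comp (Subgroup.subtype _)).codRestrict _ (fun x => x.2)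
  have hz : Group.IsSolvable (Subgroup.zpowers q) := Group.isSolvable_of_comm (by
    rintro ⟨_, m, rfl⟩ ⟨_, n, rfl⟩
    exact Subtype.ext (zpow_mul_comm q m n))
  let j : f.ker →* (Subgroup.zpowers q).comap f :=
    f.ker.subtype.codRestrict _ (fun x => by
      rw [Subgroup.mem_comap, Subgroup.coe_subtype, x.2]
      exact one_mem _)
  have hK' := hK
  refine Group.isSolvable_of_ker_le_range j g ?_
  intro x hx
  have h1 : f x.1 = 1 := congrArg Subtype.val hx
  exact ⟨⟨x.1, h1⟩, rfl⟩

/-- kernels which satisfy the laws of a virtually solvable group -/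
theorem laws_kernel (hC : Closed C) (hE : ExtClosed C) (hS : HasSolvable C) {G Q : Type}
    [Group G] [Group Q] (f : G →* Q) (hf : Function.Surjective f) (hQ : C Q)
    {A : Type} [Group A] (hA : VSolv A) (hK : SatLaws A f.ker) : C G := by
  obtain ⟨S, hS1, hS2, hS3⟩ := hA
  have hn : (verbal (A ⧸ S) f.ker).Normal := verbal_normal _ _
  have hle : verbal (A ⧸ S) f.ker ≤ f.ker := verbal_le _ _
  have hB : Finite (A ⧸ S) := Subgroup.finite_quotient_of_finiteIndex
  -- the quotient by the verbal subgroup
  have h1 : C (G ⧸ verbal (A ⧸ S) f.ker) := by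
    refine lf_kernel hC hE (QuotientGroup.lift _ f hle) ?_ hQ ?_
    · exact QuotientGroup.lift_surjective_of_surjective _ _ hf _
    · have h2 : (QuotientGroup.lift (verbal (A ⧸ S) f.ker) f hle).ker =
          f.ker.map (QuotientGroup.mk' _) := QuotientGroup.ker_lift _ _ _
      rw [h2]
      exact locFin_of_laws (sat_quot _ _)
  refine solvable_kernel hE hS (QuotientGroup.mk' (verbal (A ⧸ S) f.ker))
    (QuotientGroup.mk'_surjective _) h1 ?_
  rw [QuotientGroup.ker_mk']
  have h2 := vb_solvable S hS3 f.ker hK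
  exact Group.isSolvable_of_surjective (f := ((Subgroup.subtype f.ker).subgroupMap (vb (A ⧸ S) f.ker)))
    (MonoidHom.subgroupMap_surjective _ _)

end ext

end Pool.Agent.Q91.FJ
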