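import Pool.Agent.Q91.FJ.Laws
import Pool.Agent.Q152.WP.KS2

/-!
# Extensions whose kernel has an ascending series with good factors
-/

set_option autoImplicit false

namespace Pool.Agent.Q91.FJ

open Pool.Agent.Y462.SS Pool.Agent.Q152.WP

variable {C : ∀ (G : Type) [Group G], Prop}

/-- a group with a good normal subgroup and a cyclic quotient -/
theorem cyc_mem (hC : Closed C) {E : Type} [Group E] (F : Subgroup E) [F.Normal] (t : E)
    (ht : F ⊔ Subgroup.zpowers t = ⊤) (hF : ByCyclic C F) : C E := by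
  have hgen : ∀ x : E ⧸ F, x ∈ Subgroup.zpowers (QuotientGroup.mk' F t) := by
    intro x
    obtain ⟨y, rfl⟩ := QuotientGroup.mk'_surjective F x
    have hy : y ∈ F ⊔ Subgroup.zpowers t := by rw [ht]; exact Subgroup.mem_top _
    have h1 := Subgroup.mem_map_of_mem (QuotientGroup.mk' F) hy
    rw [Subgroup.map_sup, MonoidHom.map_zpowers] at h1
    have h2 : F.map (QuotientGroup.mk' F) = ⊥ := by
      rw [Subgroup.map_eq_bot_iff, QuotientGroup.ker_mk']
    rw [h2, bot_sup_eq] at h1
    exact h1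
  by_cases hfin : IsOfFinOrder (QuotientGroup.mk' F t)
  · have h1 : Finite (E ⧸ F) := by
      have h2 : Finite (Subgroup.zpowers (QuotientGroup.mk' F t)) :=
        Set.Finite.to_subtype (finite_zpowers.2 hfin)
      exact Finite.of_injective (fun x => (⟨x, hgen x⟩ : Subgroup.zpowers _))
        (fun a b h => congrArg Subtype.val h)
    have h2 : F.FiniteIndex := Subgroup.finiteIndex_of_finite_quotient
    exact hC.finiteIndex E F h2 hF.self
  · obtain ⟨e, he⟩ := exists_expo (QuotientGroup.mk' F) hfin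
    let j : E →* (Subgroup.zpowers (QuotientGroup.mk' F t)).comap (QuotientGroup.mk' F) :=
      (MonoidHom.id E).codRestrict _ (fun x => hgen _)
    refine hF E (e.comp j) ⟨MulEquiv.subgroupCongr ?_⟩
    ext x
    rw [MonoidHom.mem_ker]
    constructor
    · intro h
      have h1 := he (j x)
      have h2 : e (j x) = 1 := h
      rw [h2, toAdd_one, zpow_zero] at h1
      exact (QuotientGroup.eq_one_iff x).1 h1.symm
    · intro h
      have h1 := he (j x)
      have h2 : QuotientGroup.mk' F (j x : E) = 1 := (QuotientGroup.eq_one_iff x).2 h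
      rw [h2] at h1
      have h3 : (QuotientGroup.mk' F t) ^ (Multiplicative.toAdd (e (j x))) =
          (QuotientGroup.mk' F t) ^ (0 : ℤ) := by rw [h1, zpow_zero]
      have h4 := injective_zpow_iff_not_isOfFinOrder.2 hfin h3
      exact Multiplicative.toAdd.injective h4

/-- one step -/
theorem step (hC : Closed C) (hE : ExtClosed C) {G : Type} [Group G] (N M : Subgroup G) [N.Normal]
    [M.Normal] (hNM : N ≤ M) (hM : ByCyclic C (M.map (QuotientGroup.mk' N)))
    (hN : ∀ t : G, C (N ⊔ Subgroup.zpowers t : Subgroup G)) (t : G) :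
    C (M ⊔ Subgroup.zpowers t : Subgroup G) := by
  obtain ⟨P, hP⟩ : ∃ P : Subgroup G, P = M ⊔ Subgroup.zpowers t := ⟨_, rfl⟩
  rw [← hP]
  have hNP : N ≤ P := by rw [hP]; exact hNM.trans le_sup_left
  let f : P →* P.map (QuotientGroup.mk' N) := (QuotientGroup.mk' N).subgroupMap P
  have hf : Function.Surjective f := (QuotientGroup.mk' N).subgroupMap_surjective P
  have hfv : ∀ x : P, ((f x : P.map (QuotientGroup.mk' N)) : G ⧸ N) = QuotientGroup.mk' N x :=
    fun _ => rfl
  -- the quotient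
  have hQ : C (P.map (QuotientGroup.mk' N)) := by
    have hMP : M.map (QuotientGroup.mk' N) ≤ P.map (QuotientGroup.mk' N) :=
      Subgroup.map_mono (by rw [hP]; exact le_sup_left)
    have hMn : (M.map (QuotientGroup.mk' N)).Normal :=
      Subgroup.Normal.map inferInstance _ (QuotientGroup.mk'_surjective N)
    have htP : t ∈ P := by
      rw [hP]
      exact (le_sup_right : Subgroup.zpowers t ≤ _) (Subgroup.mem_zpowers t)
    let t' : P.map (QuotientGroup.mk' N) := f ⟨t, htP⟩
    refine cyc_mem hC ((M.map (QuotientGroup.mk' N)).subgroupOf (P.map (QuotientGroup.mk' N)))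
      t' ?_ ?_
    · rw [eq_top_iff]
      rintro ⟨_, ⟨x, hx, rfl⟩⟩ -
      have h1 : x ∈ M ⊔ Subgroup.zpowers t := by rw [← hP]; exact hx
      rw [← SetLike.mem_coe, Subgroup.normal_mul] at h1
      obtain ⟨m, hm, z, ⟨n, rfl⟩, rfl⟩ := h1
      have hmP : m ∈ P := by rw [hP]; exact (le_sup_left : M ≤ _) hm
      have h2 : (⟨QuotientGroup.mk' N (m * t ^ n), ⟨m * t ^ n, hx, rfl⟩⟩ :
          P.map (QuotientGroup.mk' N)) = f ⟨m, hmP⟩ * t' ^ n := by
        apply Subtype.ext
        change QuotientGroup.mk' N (m * t ^ n) = _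
        rw [map_mul, map_zpow]
        rfl
      rw [h2]
      refine mul_mem ((le_sup_left : (M.map (QuotientGroup.mk' N)).subgroupOf
        (P.map (QuotientGroup.mk' N)) ≤ _) ?_) ((le_sup_right : Subgroup.zpowers t' ≤ _)
          (Subgroup.zpow_mem _ (Subgroup.mem_zpowers t') n))
      rw [Subgroup.mem_subgroupOf]
      exact Subgroup.mem_map_of_mem _ hm
    · intro E _ φ hφ
      obtain ⟨e⟩ := hφ
      exact hM E φ ⟨e.trans (Subgroup.subgroupOfEquivOfLe hMP)⟩
  refine hE P _ f hf hQ ?_ ?_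
  · -- the kernel
    refine hC.of_injective _ (N ⊔ Subgroup.zpowers (1 : G) : Subgroup G)
      { toFun := fun x => ⟨(x : P), (le_sup_left : N ≤ _) ?_⟩
        map_one' := rfl
        map_mul' := fun _ _ => rfl } ?_ (hN 1)
    · have h1 : QuotientGroup.mk' N ((x : P) : G) = 1 := by
        rw [← hfv, x.2]
        rfl
      exact (QuotientGroup.eq_one_iff _).1 h1
    · intro a b hab
      have h1 := congrArg (fun z : (N ⊔ Subgroup.zpowers (1 : G) : Subgroup G) => (z : G)) hab
      exact Subtype.ext (Subtype.ext h1)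
  · intro q _
    obtain ⟨s, rfl⟩ := hf q
    refine hC.of_injective _ (N ⊔ Subgroup.zpowers (s : G) : Subgroup G)
      { toFun := fun x => ⟨(x : P), ?_⟩
        map_one' := rfl
        map_mul' := fun _ _ => rfl } ?_ (hN s)
    · obtain ⟨n, hn⟩ := x.2
      have h1 : QuotientGroup.mk' N ((s : G) ^ n) = QuotientGroup.mk' N ((x : P) : G) := by
        have h2 := congrArg Subtype.val hn
        simp only [Subgroup.coe_zpow] at h2
        rw [map_zpow]
        exact h2
      have h2 : ((s : G) ^ n)⁻¹ * ((x : P) : G) ∈ N := QuotientGroup.eq.1 h1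
      have h3 : ((x : P) : G) = (s : G) ^ n * (((s : G) ^ n)⁻¹ * ((x : P) : G)) := by group
      rw [h3]
      exact mul_mem ((le_sup_right : Subgroup.zpowers (s : G) ≤ _)
        (Subgroup.zpow_mem _ (Subgroup.mem_zpowers _) n)) ((le_sup_left : N ≤ _) h2)
    · intro a b hab
      have h1 := congrArg (fun z : (N ⊔ Subgroup.zpowers (s : G) : Subgroup G) => (z : G)) hab
      exact Subtype.ext (Subtype.ext h1)

/-- **kernels with an ascending series** -/
theorem hyper (hC : Closed C) (hE : ExtClosed C) {G : Type} [Group G] (K : Subgroup G) [K.Normal]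
    (hQ : C (G ⧸ K))
    (h : ∀ (N : Subgroup G) [N.Normal], N < K → ∃ M : Subgroup G, M.Normal ∧ N < M ∧ M ≤ K ∧
      ByCyclic C (M.map (QuotientGroup.mk' N))) : C G := by
  obtain ⟨S, hS⟩ : ∃ S : Set (Subgroup G), ∀ N, N ∈ S ↔ N.Normal ∧ N ≤ K ∧
      ∀ t : G, C (N ⊔ Subgroup.zpowers t : Subgroup G) := ⟨{N | _}, fun _ => Iff.rfl⟩
  have hbot : ⊥ ∈ S := by
    rw [hS]
    refine ⟨inferInstance, bot_le, fun t => ?_⟩
    rw [bot_sup_eq]
    by_cases ht : IsOfFinOrder t
    · have h2 : Finite (Subgroup.zpowers t) :=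
        Set.Finite.to_subtype (finite_zpowers.2 ht)
      exact Pool.Agent.Y430.SS.of_finite hC _ h2
    · obtain ⟨e, he⟩ := exists_expo (MonoidHom.id G) ht
      refine hC.of_injective _ _ (e.comp ((Subgroup.subtype _).codRestrict _ fun x => x.2)) ?_
        hC.int
      intro a b hab
      have h1 := he ⟨a, a.2⟩
      have h2 := he ⟨b, b.2⟩
      have h3 : e ⟨a, a.2⟩ = e ⟨b, b.2⟩ := hab
      rw [h3, h2] at h1
      exact Subtype.ext h1.symm
  obtain ⟨N, -, hN, hmax⟩ := zorn_le_nonempty₀ S (by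
    intro c hc hchain y hy
    refine ⟨sSup c, ?_, fun z hz => le_sSup hz⟩
    have hdir : DirectedOn (· ≤ ·) c := hchain.directedOn
    have hne : c.Nonempty := ⟨y, hy⟩
    have hmem : ∀ x : G, x ∈ sSup c ↔ ∃ N ∈ c, x ∈ N := fun x =>
      Subgroup.mem_sSup_of_directedOn hne hdir
    rw [hS]
    refine ⟨⟨fun x hx g => ?_⟩, sSup_le (fun N hN => ((hS N).1 (hc hN)).2.1), fun t => ?_⟩
    · rw [hmem] at hx ⊢
      obtain ⟨N, hN, hx⟩ := hx
      exact ⟨N, hN, ((hS N).1 (hc hN)).1.conj_mem x hx g⟩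
    · -- the directed union
      have hne' : Nonempty c := hne.to_subtype
      refine Pool.Agent.Y430.SS.of_directed hC _ c (fun i j => ?_)
        (fun i => (i.1 ⊔ Subgroup.zpowers t).subgroupOf (sSup c ⊔ Subgroup.zpowers t)) ?_ ?_ ?_
      · obtain ⟨k, hk, h1, h2⟩ := hdir i.1 i.2 j.1 j.2
        exact ⟨⟨k, hk⟩, h1, h2⟩
      · intro i j hij
        exact Subgroup.subgroupOf_mono _ (sup_le_sup_right hij _)
      · rintro ⟨x, hx⟩
        have hn : (sSup c).Normal := ⟨fun x hx g => by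
          rw [hmem] at hx ⊢
          obtain ⟨N, hN, hx⟩ := hx
          exact ⟨N, hN, ((hS N).1 (hc hN)).1.conj_mem x hx g⟩⟩
        have hx' := hx
        rw [← SetLike.mem_coe, Subgroup.normal_mul] at hx'
        obtain ⟨m, hm, z, hz, rfl⟩ := hx'
        obtain ⟨N, hN, hm'⟩ := (hmem m).1 hm
        exact ⟨⟨N, hN⟩, mul_mem ((le_sup_left : N ≤ _) hm')
          ((le_sup_right : Subgroup.zpowers t ≤ _) hz)⟩
      · intro i
        have h1 : i.1 ⊔ Subgroup.zpowers t ≤ sSup c ⊔ Subgroup.zpowers t :=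
          sup_le_sup_right (le_sSup i.2) _
        exact Pool.Agent.Y812.SS.C_equiv hC (Subgroup.subgroupOfEquivOfLe h1)
          (((hS i.1).1 (hc i.2)).2.2 t)) ⊥ hbot
  have hN' := (hS N).1 hN
  have hNK : N = K := by
    by_contra hne
    haveI := hN'.1
    obtain ⟨M, hM1, hM2, hM3, hM4⟩ := h N (lt_of_le_of_ne hN'.2.1 hne)
    have h1 : M ∈ S := (hS M).2 ⟨hM1, hM3, fun t => step hC hE N M hM2.le hM4 hN'.2.2 t⟩
    exact absurd (hmax h1 hM2.le) (not_le_of_gt hM2)
  subst hNK
  refine hE G (G ⧸ N) (QuotientGroup.mk' N) (QuotientGroup.mk'_surjective N) hQ ?_ ?_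
  · rw [QuotientGroup.ker_mk']
    refine Pool.Agent.Y812.SS.C_equiv hC (MulEquiv.subgroupCongr ?_) (hN'.2.2 1)
    simp
  · intro q _
    obtain ⟨s, rfl⟩ := QuotientGroup.mk'_surjective N q
    refine Pool.Agent.Y812.SS.C_equiv hC (MulEquiv.subgroupCongr ?_) (hN'.2.2 s)
    rw [← MonoidHom.map_zpowers, Subgroup.comap_map_eq, QuotientGroup.ker_mk', sup_comm]

end Pool.Agent.Q91.FJ
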